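import Mathlib

/-! The weak cut and choose game of length `ω`, and Mahlo cardinals. -/

set_option autoImplicit false

namespace Pool.Agent.TH768.CC

open Cardinal

universe u

/-- `Choose` wins the game `U(κ, ≤ω)`, played on a set `X` (of cardinality `κ`).

In round `n` the current set is the set of the points which lie in all sets `C m`, `m < n`, chosen
so far. Cut splits it into two disjoint sets `A n` and `B n`, and Choose answers with `C n`. A
strategy `σ` of Choose gives an answer for each finite sequence of moves of Cut. It is winning if,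
for all moves of Cut which follow the rules, its answers follow the rules and are not singletons,
and the sets `C n` have a common element. -/
def ChooseWins (X : Type u) : Prop :=
  ∃ σ : List (Set X × Set X) → Set X,
    ∀ A B C : ℕ → Set X,
      (∀ n, A n ∪ B n = {x | ∀ m < n, x ∈ C m} ∧ Disjoint (A n) (B n)) →
      (∀ n, C n = σ ((List.range (n + 1)).map fun m => (A m, B m))) →
      (∀ n, (C n = A n ∨ C n = B n) ∧ ∀ x, C n ≠ {x}) ∧ ∃ x, ∀ n, x ∈ C n

/-- `C` is a closed unbounded set of ordinals below `o`. -/
def ClubIn (C : Set Ordinal.{u}) (o : Ordinal.{u}) : Prop :=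
  (∀ a ∈ C, a < o) ∧ (∀ a < o, ∃ c ∈ C, a < c) ∧
    ∀ a < o, a ≠ 0 → (∀ b < a, ∃ c ∈ C, b < c ∧ c < a) → a ∈ C

/-- `κ` is a (strongly) Mahlo cardinal: it is inaccessible, and every closed unbounded set of
ordinals below `κ` has an inaccessible cardinal as an element. -/
def Mahlo (κ : Cardinal.{u}) : Prop :=
  κ.IsInaccessible ∧ ∀ C : Set Ordinal.{u}, ClubIn C κ.ord → ∃ μ : Cardinal.{u},
    μ.IsInaccessible ∧ μ.ord ∈ C

/-- A tree of positions for Choose: sets `S q`, `q ∈ Q`, none of them with less than two points,
decreasing along the order, such that below each `q` each set can be decided, and the sets along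
each decreasing sequence have a common point. -/
def Good (X : Type u) : Prop :=
  ∃ (Q : Type u) (_ : Preorder Q) (S : Q → Set X), Nonempty Q ∧
    (∀ p q, p ≤ q → S p ⊆ S q) ∧
    (∀ q (A : Set X), ∃ p ≤ q, S p ⊆ A ∨ S p ⊆ Aᶜ) ∧
    (∀ q : ℕ → Q, Antitone q → ∃ x, ∀ n, x ∈ S (q n)) ∧
    ∀ q, ¬ (S q).Subsingleton

end Pool.Agent.TH768.CC
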