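import Mathlib

/-! A function on sequences which takes all values on the branches of each tree. -/

set_option autoImplicit false
set_option linter.all false

namespace Pool.Agent.TH768.CC

open Cardinal Order Set

universe u

/-- a function which takes all values on each of few large sets -/
lemma bern {ι N Y : Type u} {θ : Cardinal.{u}} (hθ : ℵ₀ ≤ θ) (hι : #ι ≤ θ) (hN : #N ≤ θ)
    [Nonempty N] (B : ι → Set Y) (hB : ∀ i, θ ≤ #(B i)) :
    ∃ g : Y → N, ∀ i ν, ∃ y ∈ B i, g y = ν := by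
  classical
  have hT : #(ι × N) ≤ θ := by
    rw [mk_prod, lift_id, lift_id]
    exact (mul_le_mul' hι hN).trans (mul_eq_self hθ).le
  obtain ⟨e⟩ : Nonempty ((ι × N) ↪ θ.ord.ToType) := by
    rw [← mk_ord_toType θ] at hT
    exact hT
  let lt : ι × N → ι × N → Prop := fun s t => e s < e t
  have hwf : WellFounded lt := InvImage.wf e wellFounded_lt
  have hstep : ∀ (t : ι × N) (r : (s : ι × N) → lt s t → Y), ∃ y : Y,
      y ∈ B t.1 ∧ ∀ s (h : lt s t), y ≠ r s h := by
    intro t r
    let I : Type u := {s : ι × N // lt s t}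
    have hI : #I < θ := by
      have h1 : #I ≤ #(Iio (e t)) := by
        refine Cardinal.mk_le_of_injective (f := fun s : I => (⟨e s.1, s.2⟩ : Iio (e t))) ?_
        intro s s' h
        have h2 : e s.1 = e s'.1 := congrArg Subtype.val h
        exact Subtype.ext (e.injective h2)
      exact h1.trans_lt (mk_Iio_toType_ord_lt _)
    let U : Set Y := range (fun s : I => r s.1 s.2)
    have hU : #U < θ := mk_range_le.trans_lt hI
    have h3 : ∃ a ∈ B t.1, a ∉ U := by
      by_contra hcon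
      push Not at hcon
      exact absurd ((hB t.1).trans (mk_le_mk_of_subset hcon)) (not_le.2 hU)
    obtain ⟨a, ha, haU⟩ := h3
    exact ⟨a, ha, fun s h h5 => haU ⟨⟨s, h⟩, h5.symm⟩⟩
  let g : ι × N → Y := hwf.fix fun t r => Classical.choose (hstep t r)
  have hg : ∀ t, g t = Classical.choose (hstep t (fun s _ => g s)) := by
    intro t
    show hwf.fix _ t = _
    rw [WellFounded.fix_eq]
  have hspec : ∀ t, g t ∈ B t.1 ∧ ∀ s, lt s t → g t ≠ g s := by
    intro t
    have h := Classical.choose_spec (hstep t (fun s _ => g s))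
    rw [← hg t] at h
    exact h
  have hinj : Function.Injective g := by
    intro s t hst
    rcases lt_trichotomy (e s) (e t) with h1 | h1 | h1
    · exact absurd hst.symm ((hspec t).2 s h1)
    · exact e.injective h1
    · exact absurd hst ((hspec s).2 t h1)
  refine ⟨fun y => if h : ∃ t, g t = y then (Classical.choose h).2 else Classical.arbitrary N, ?_⟩
  intro i ν
  refine ⟨g (i, ν), (hspec (i, ν)).1, ?_⟩
  have hex : ∃ t, g t = g (i, ν) := ⟨(i, ν), rfl⟩
  refine (dif_pos hex).trans ?_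
  have h1 : Classical.choose hex = (i, ν) := hinj (Classical.choose_spec hex)
  rw [h1]

/-- the finite sequence `x (n-1), …, x 0` -/
def hist {K : Type*} (x : ℕ → K) : ℕ → List K
  | 0 => []
  | n + 1 => x n :: hist x n

/-- the sequence of the values of `V` along `x` -/
def run {K : Type*} (V : List K → K → K) (x : ℕ → K) (n : ℕ) : K := V (hist x n) (x n)

lemma hist_congr {K : Type*} {x y : ℕ → K} {n : ℕ} (h : ∀ m < n, x m = y m) :
    hist x n = hist y n := by
  induction n with
  | zero => rfl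
  | succ n ih =>
    simp only [hist]
    rw [ih fun m hm => h m (by omega), h n (by omega)]

lemma run_injective {K : Type*} {V : List K → K → K} (hV : ∀ t, Function.Injective (V t)) :
    Function.Injective (run V) := by
  intro x y hxy
  have key : ∀ n, ∀ m < n, x m = y m := by
    intro n
    induction n with
    | zero => intro m hm; omega
    | succ n ih =>
      intro m hm
      rcases Nat.lt_succ_iff_lt_or_eq.1 hm with h | h
      · exact ih m h
      · subst h
        have h1 := congrFun hxy m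
        unfold run at h1
        rw [hist_congr ih] at h1
        exact hV _ h1
  funext n
  exact key (n + 1) n (by omega)

lemma hist_mem {K : Type*} {x : ℕ → K} {n : ℕ} {a : K} (h : a ∈ hist x n) : ∃ m, a = x m := by
  induction n with
  | zero => simp [hist] at h
  | succ n ih =>
    simp only [hist, List.mem_cons] at h
    rcases h with h | h
    · exact ⟨n, h⟩
    · exact ih h

variable {K : Type u} [LinearOrder K]

/-- `d` is the least strict upper bound of `s` -/
def IsLevel (s : ℕ → K) (d : K) : Prop := (∀ n, s n < d) ∧ ∀ e < d, ∃ n, e ≤ s n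

lemma IsLevel.unique {s : ℕ → K} {d d' : K} (h : IsLevel s d) (h' : IsLevel s d') : d = d' := by
  rcases lt_trichotomy d d' with h1 | h1 | h1
  · obtain ⟨n, hn⟩ := h'.2 d h1
    exact absurd (h.1 n) (not_lt.2 hn)
  · exact h1
  · obtain ⟨n, hn⟩ := h.2 d' h1
    exact absurd (h'.1 n) (not_lt.2 hn)

/-- `d` is a limit of a sequence with fast growing initial segments -/
def Nice (d : K) : Prop :=
  ∃ D : ℕ → K, (∀ n, ℵ₀ ≤ #(Iio (D n))) ∧ (∀ n, D n < d) ∧ (∀ e < d, ∃ n, e < D n) ∧
    ∀ n, (2 : Cardinal.{u}) ^ #(Iio (D n)) ≤ #(Iio d)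

lemma Nice.inf {d : K} (h : Nice d) : ℵ₀ ≤ #(Iio d) := by
  obtain ⟨D, h1, h2, -, -⟩ := h
  exact (h1 0).trans (mk_le_mk_of_subset fun a ha => lt_trans ha (h2 0))

lemma Nice.pow_le {d : K} (h : Nice d) : (2 : Cardinal.{u}) ^ #(Iio d) ≤ #(ℕ → Iio d) := by
  obtain ⟨D, h1, h2, h3, h4⟩ := h
  have h5 : ∀ n, ∃ φ : Set (Iio (D n)) → Iio d, Function.Injective φ := by
    intro n
    have h6 : #(Set (Iio (D n))) ≤ #(Iio d) := by
      rw [mk_set]
      exact h4 n
    obtain ⟨φ⟩ := h6
    exact ⟨φ, φ.injective⟩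
  choose φ hφ using h5
  rw [← mk_set]
  refine Cardinal.mk_le_of_injective
    (f := fun (A : Set (Iio d)) (n : ℕ) => φ n {a | ∃ b ∈ A, (b : K) = a}) ?_
  intro A A' hAA
  have key : ∀ A A' : Set (Iio d), (fun (n : ℕ) => φ n {a | ∃ b ∈ A, (b : K) = a})
      = (fun (n : ℕ) => φ n {a | ∃ b ∈ A', (b : K) = a}) → A ⊆ A' := by
    intro A A' hAA b hb
    obtain ⟨n, hn⟩ := h3 b b.2
    have h6 : (⟨b, hn⟩ : Iio (D n)) ∈ {a : Iio (D n) | ∃ b ∈ A, (b : K) = a} := ⟨b, hb, rfl⟩
    rw [hφ n (congrFun hAA n)] at h6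
    obtain ⟨b', hb', h7⟩ := h6
    have h8 : b' = b := Subtype.ext h7
    rwa [← h8]
  exact (key A A' hAA).antisymm (key A' A hAA.symm)

lemma Nice.bdd_le {d : K} (h : Nice d) :
    #{s : ℕ → Iio d | ∃ e : K, e < d ∧ ∀ n, (s n : K) < e} ≤ #(Iio d) := by
  have hinf := h.inf
  obtain ⟨D, h1, h2, h3, h4⟩ := h
  have h5 : {s : ℕ → Iio d | ∃ e : K, e < d ∧ ∀ n, (s n : K) < e} ⊆
      ⋃ n : ULift.{u} ℕ, {s : ℕ → Iio d | ∀ m, (s m : K) < D n.down} := by
    rintro s ⟨e, he, hs⟩
    obtain ⟨n, hn⟩ := h3 e he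
    exact mem_iUnion.2 ⟨⟨n⟩, fun m => (hs m).trans hn⟩
  have h6 : ∀ n : ULift.{u} ℕ, #{s : ℕ → Iio d | ∀ m, (s m : K) < D n.down} ≤ #(Iio d) := by
    intro n
    have h7 : #{s : ℕ → Iio d | ∀ m, (s m : K) < D n.down} ≤ #(ℕ → Iio (D n.down)) := by
      refine Cardinal.mk_le_of_injective (f := fun s m => ⟨s.1 m, s.2 m⟩) ?_
      intro s s' hss
      apply Subtype.ext
      funext m
      have h8 := congrArg Subtype.val (congrFun hss m)
      exact Subtype.ext h8
    refine h7.trans (le_trans ?_ (h4 n.down))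
    rw [mk_arrow, mk_nat, lift_aleph0, lift_uzero]
    calc #(Iio (D n.down)) ^ ℵ₀ ≤ (2 ^ #(Iio (D n.down))) ^ ℵ₀ :=
          power_le_power_right (cantor _).le
      _ = 2 ^ (#(Iio (D n.down)) * ℵ₀) := by rw [power_mul]
      _ = 2 ^ #(Iio (D n.down)) := by rw [mul_aleph0_eq (h1 _)]
  refine (mk_le_mk_of_subset h5).trans ((mk_iUnion_le _).trans ?_)
  refine (mul_le_mul' (le_refl _) (ciSup_le' h6)).trans ?_
  rw [mk_uLift, mk_nat, lift_aleph0, aleph0_mul_eq hinf]

lemma Nice.exists_fun {d : K} (h : Nice d) : ∃ G : (ℕ → K) → K, ∀ V : List K → K → K,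
    (∀ t, Function.Injective (V t)) → (∀ t : List K, (∀ a ∈ t, a < d) → ∀ j < d, V t j < d) →
    ∀ ν < d, ∃ x : ℕ → K, IsLevel (run V x) d ∧ G (run V x) = ν := by
  classical
  have hinf := h.inf
  have hθ : ℵ₀ ≤ (2 : Cardinal.{u}) ^ #(Iio d) := hinf.trans (cantor _).le
  have hne : Nonempty (Iio d) := by
    rw [← mk_ne_zero_iff]
    exact (aleph0_pos.trans_le hinf).ne'
  let ι : Type u := {V : List (Iio d) → Iio d → Iio d // ∀ t, Function.Injective (V t)}
  have hι : #ι ≤ 2 ^ #(Iio d) := by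
    refine (mk_subtype_le _).trans ?_
    rw [mk_arrow, mk_arrow, lift_id, lift_id, lift_id]
    have : Infinite (Iio d) := infinite_iff.2 hinf
    rw [mk_list_eq_mk]
    rw [← power_mul, mul_eq_self hinf, power_self_eq hinf]
  let B : ι → Set (ℕ → Iio d) := fun V =>
    {s | (∃ x, s = run V.1 x) ∧ ∀ e < d, ∃ n, e ≤ (s n : K)}
  have hB : ∀ V, 2 ^ #(Iio d) ≤ #(B V) := by
    intro V
    by_contra hcon
    push Not at hcon
    have h1 : range (run V.1) ⊆ B V ∪ {s : ℕ → Iio d | ∃ e : K, e < d ∧ ∀ n, (s n : K) < e} := by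
      rintro s ⟨x, rfl⟩
      by_cases h2 : ∀ e < d, ∃ n, e ≤ ((run V.1 x n : Iio d) : K)
      · left
        exact ⟨⟨x, rfl⟩, h2⟩
      · right
        push Not at h2
        exact h2
    have h2 : #(range (run V.1)) = #(ℕ → Iio d) := mk_range_eq _ (run_injective V.2)
    have h3 : #(range (run V.1)) < 2 ^ #(Iio d) :=
      (mk_le_mk_of_subset h1).trans_lt ((mk_union_le _ _).trans_lt
        (add_lt_of_lt hθ hcon (h.bdd_le.trans_lt (cantor _))))
    rw [h2] at h3
    exact absurd h.pow_le (not_le.2 h3)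
  obtain ⟨g, hg⟩ := bern hθ hι ((cantor #(Iio d)).le) B hB
  refine ⟨fun s => if hs : ∀ n, s n < d then (g fun n => ⟨s n, hs n⟩ : Iio d) else s 0, ?_⟩
  intro V hV hcl ν hν
  let V' : ι := ⟨fun t j => ⟨V (t.map Subtype.val) j.1, hcl _ (by
    intro a ha
    obtain ⟨b, _, rfl⟩ := List.mem_map.1 ha
    exact b.2) _ j.2⟩, by
    intro t a b hab
    exact Subtype.ext (hV _ (congrArg Subtype.val hab))⟩
  obtain ⟨s, ⟨⟨x, hx⟩, hs⟩, hgs⟩ := hg V' ⟨ν, hν⟩
  have hh : ∀ n, (hist x n).map Subtype.val = hist (fun n => (x n : K)) n := by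
    intro n
    induction n with
    | zero => rfl
    | succ n ih => simp only [hist, List.map_cons, ih]
  have hr : ∀ n, (s n : K) = run V (fun n => (x n : K)) n := by
    intro n
    rw [hx]
    unfold run
    rw [← hh n]
  have hr' : run V (fun n => (x n : K)) = fun n => (s n : K) := funext fun n => (hr n).symm
  refine ⟨fun n => (x n : K), ?_, ?_⟩
  · rw [hr']
    exact ⟨fun n => (s n).2, hs⟩
  · rw [hr']
    have h9 : ∀ n, ((s n : Iio d) : K) < d := fun n => (s n).2
    refine (dif_pos h9).trans ?_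
    exact congrArg Subtype.val hgs

end Pool.Agent.TH768.CC
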