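import Mathlib
import Pool.Agent.TH768.CC.Defs
import Pool.Agent.TH768.CC.Bern

/-! The main argument. -/

set_option autoImplicit false
set_option linter.all false

namespace Pool.Agent.TH768.CC

open Cardinal Order Set

universe u

/-- properties of a regular uncountable strong limit cardinal `κ` as a well-order `K` -/
structure Inacc (K : Type u) [LinearOrder K] (κ : Cardinal.{u}) : Prop where
  inacc : κ.IsInaccessible
  mkK : #K = κ
  mk_Iio : ∀ a : K, #(Iio a) < κ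
  bdd : ∀ s : Set K, #s < κ → ∃ b, ∀ a ∈ s, a < b
  unb : ∀ c < κ, ∃ a : K, c ≤ #(Iio a)

variable {K : Type u} [LinearOrder K] {κ : Cardinal.{u}}

lemma Inacc.bdd_range (hK : Inacc K κ) {ι : Type u} (f : ι → K) (hι : #ι < κ) :
    ∃ b, ∀ i, f i < b := by
  obtain ⟨b, hb⟩ := hK.bdd (range f) (mk_range_le.trans_lt hι)
  exact ⟨b, fun i => hb _ ⟨i, rfl⟩⟩

lemma Inacc.exists_gt (hK : Inacc K κ) (a b : K) : ∃ c, a < c ∧ b < c := by
  obtain ⟨c, hc⟩ := hK.bdd {a, b} ((mk_insert_le).trans_lt (by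
    rw [mk_singleton]
    have := hK.inacc.nat_lt 2
    norm_num at this ⊢
    exact this))
  exact ⟨c, hc a (by simp), hc b (by simp)⟩

lemma Inacc.mk_Iic (hK : Inacc K κ) (a : K) : #(Iic a) < κ := by
  obtain ⟨c, hc, -⟩ := hK.exists_gt a a
  exact (mk_le_mk_of_subset fun x hx => lt_of_le_of_lt hx hc).trans_lt (hK.mk_Iio c)

lemma Inacc.nice [WellFoundedLT K] (hK : Inacc K κ) (V : List K → K → K) (ν : K) :
    ∃ d : K, Nice d ∧ ν < d ∧ ∀ t : List K, (∀ a ∈ t, a < d) → ∀ j < d, V t j < d := by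
  classical
  have hinf : ℵ₀ < κ := hK.inacc.aleph0_lt
  -- one step
  have hstep : ∀ a : K, ∃ b : K, a < b ∧ (2 : Cardinal.{u}) ^ #(Iio a) ≤ #(Iio b) ∧
      ∀ t : List K, (∀ c ∈ t, c < a) → ∀ j < a, V t j < b := by
    intro a
    obtain ⟨b1, hb1⟩ := hK.unb (2 ^ #(Iio a)) (hK.inacc.isStrongLimit.two_power_lt (hK.mk_Iio a))
    have h1 : #(List (Iio a) × Iio a) < κ := by
      rw [mk_prod, lift_id, lift_id]
      refine mul_lt_of_lt hinf.le ?_ (hK.mk_Iio a)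
      exact (mk_list_le_max _).trans_lt (max_lt hinf (hK.mk_Iio a))
    obtain ⟨b2, hb2⟩ := hK.bdd_range
      (fun p : List (Iio a) × Iio a => V (p.1.map Subtype.val) p.2.1) h1
    obtain ⟨b3, hb3, hb3'⟩ := hK.exists_gt b1 b2
    obtain ⟨b, hb, hb'⟩ := hK.exists_gt b3 a
    refine ⟨b, hb', hb1.trans (mk_le_mk_of_subset fun x hx =>
      (hx : x < b1).trans (hb3.trans hb)), ?_⟩
    intro t ht j hj
    lift t to List (Iio a) using ht
    exact (hb2 (t, ⟨j, hj⟩)).trans (hb3'.trans hb)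
  choose nx hnx1 hnx2 hnx3 using hstep
  obtain ⟨a0, ha0⟩ := hK.unb ℵ₀ hinf
  obtain ⟨a1, ha1, ha1'⟩ := hK.exists_gt a0 ν
  let D : ℕ → K := fun n => nx^[n] a1
  have hD0 : D 0 = a1 := rfl
  have hDs : ∀ n, D (n + 1) = nx (D n) := fun n => Function.iterate_succ_apply' _ _ _
  have hlt : StrictMono D := strictMono_nat_of_lt_succ fun n => by rw [hDs]; exact hnx1 _
  have hex : ∃ b : K, ∀ n, D n < b := by
    obtain ⟨b, hb⟩ := hK.bdd_range (fun n : ULift.{u} ℕ => D n.down) (by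
      rw [mk_uLift, mk_nat, lift_aleph0]; exact hinf)
    exact ⟨b, fun n => hb ⟨n⟩⟩
  let d : K := wellFounded_lt.min {b : K | ∀ n, D n < b} hex
  have hd1 : ∀ n, D n < d := wellFounded_lt.min_mem {b : K | ∀ n, D n < b} hex
  have hd2 : ∀ e < d, ∃ n, e < D n := by
    intro e he
    have h1 : ¬ ∀ n, D n < e := fun h => wellFounded_lt.not_lt_min {b : K | ∀ n, D n < b} h he
    push Not at h1
    obtain ⟨n, hn⟩ := h1
    exact ⟨n + 1, hn.trans_lt (hlt (Nat.lt_succ_self n))⟩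
  refine ⟨d, ⟨D, ?_, hd1, hd2, ?_⟩, ?_, ?_⟩
  · intro n
    refine ha0.trans (mk_le_mk_of_subset fun x hx => ?_)
    exact (hx : x < a0).trans (ha1.trans_le (hlt.monotone (Nat.zero_le n)))
  · intro n
    refine (hnx2 (D n)).trans (mk_le_mk_of_subset fun x hx => ?_)
    rw [← hDs] at hx
    exact (hx : x < _).trans (hd1 _)
  · exact ha1'.trans (hd1 0)
  · intro t ht j hj
    have h1 : ∃ n, ∀ a ∈ t, a < D n := by
      induction t with
      | nil => exact ⟨0, fun a ha => by simp at ha⟩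
      | cons a t ih =>
        obtain ⟨n, hn⟩ := ih fun b hb => ht b (List.mem_cons_of_mem _ hb)
        obtain ⟨m, hm⟩ := hd2 a (ht a List.mem_cons_self)
        refine ⟨max n m, fun b hb => ?_⟩
        rcases List.mem_cons.1 hb with h | h
        · rw [h]
          exact hm.trans_le (hlt.monotone (le_max_right _ _))
        · exact (hn b h).trans_le (hlt.monotone (le_max_left _ _))
    obtain ⟨n, hn⟩ := h1
    obtain ⟨m, hm⟩ := hd2 j hj
    have h2 : V t j < nx (D (max n m)) :=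
      hnx3 _ t (fun c hc => (hn c hc).trans_le (hlt.monotone (le_max_left _ _))) j
        (hm.trans_le (hlt.monotone (le_max_right _ _)))
    rw [← hDs] at h2
    exact h2.trans (hd1 _)

/-- a function on sequences which takes all values on the branches of each tree -/
theorem Inacc.exists_g [WellFoundedLT K] (hK : Inacc K κ) : ∃ g : (ℕ → K) → K,
    ∀ V : List K → K → K, (∀ t, Function.Injective (V t)) → ∀ ν, ∃ x : ℕ → K,
      g (run V x) = ν := by
  classical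
  have h1 : ∀ d : K, ∃ G : (ℕ → K) → K, Nice d → ∀ V : List K → K → K,
      (∀ t, Function.Injective (V t)) → (∀ t : List K, (∀ a ∈ t, a < d) → ∀ j < d, V t j < d) →
      ∀ ν < d, ∃ x : ℕ → K, IsLevel (run V x) d ∧ G (run V x) = ν := by
    intro d
    by_cases hd : Nice d
    · obtain ⟨G, hG⟩ := hd.exists_fun
      exact ⟨G, fun _ => hG⟩
    · exact ⟨fun s => s 0, fun h => absurd h hd⟩
  choose G hG using h1
  refine ⟨fun s => if h : ∃ d, IsLevel s d then G (Classical.choose h) s else s 0, ?_⟩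
  intro V hV ν
  obtain ⟨d, hd, hνd, hcl⟩ := hK.nice V ν
  obtain ⟨x, hx1, hx2⟩ := hG d hd V hV hcl ν hνd
  refine ⟨x, ?_⟩
  have hex : ∃ d, IsLevel (run V x) d := ⟨d, hx1⟩
  refine (dif_pos hex).trans ?_
  rw [(Classical.choose_spec hex).unique hx1]
  exact hx2

section Tree

variable {Q : Type u} [Preorder Q] {X : Type u} {S : Q → Set X}

/-- below `q` the function `h` is somewhere constant -/
lemma decide_of (hne : ∀ q, ¬ (S q).Subsingleton) (hanti : ∀ p q, p ≤ q → S p ⊆ S q)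
    (hcut : ∀ q (A : Set X), ∃ p ≤ q, S p ⊆ A ∨ S p ⊆ Aᶜ)
    (hint : ∀ q : ℕ → Q, Antitone q → ∃ x, ∀ n, x ∈ S (q n))
    {Y : Type u} (hY : ¬ Good Y) (h : X → Y) (q : Q) : ∃ p ≤ q, ∃ y, ∀ x ∈ S p, h x = y := by
  by_contra hcon
  push Not at hcon
  apply hY
  refine ⟨{p : Q // p ≤ q}, inferInstance, fun p => h '' S p.1, ⟨⟨q, le_rfl⟩⟩, ?_, ?_, ?_, ?_⟩
  · intro p p' hpp
    exact image_mono (hanti _ _ hpp)
  · intro p A
    obtain ⟨p', hp', h1⟩ := hcut p.1 (h ⁻¹' A)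
    refine ⟨⟨p', hp'.trans p.2⟩, hp', ?_⟩
    rcases h1 with h1 | h1
    · left
      rintro _ ⟨x, hx, rfl⟩
      exact h1 hx
    · right
      rintro _ ⟨x, hx, rfl⟩
      exact h1 hx
  · intro p hp
    obtain ⟨x, hx⟩ := hint (fun n => (p n).1) fun m n hmn => hp hmn
    exact ⟨h x, fun n => ⟨x, hx n, rfl⟩⟩
  · intro p hs
    have h1 : (S p.1).Nonempty := by
      by_contra h2
      rw [not_nonempty_iff_eq_empty] at h2
      exact hne p.1 (by rw [h2]; exact subsingleton_empty)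
    obtain ⟨x, hx⟩ := h1
    obtain ⟨y, hy, h3⟩ := hcon p.1 p.2 (h x)
    exact h3 (hs ⟨y, hy, rfl⟩ ⟨x, hx, rfl⟩)

/-- a minimal function which is nowhere constant -/
lemma exists_minimal [WellFoundedLT K] {S : Q → Set K} [Nonempty Q]
    (hne : ∀ q, ¬ (S q).Subsingleton)
    (hanti : ∀ p q, p ≤ q → S p ⊆ S q)
    (hint : ∀ q : ℕ → Q, Antitone q → ∃ x, ∀ n, x ∈ S (q n)) :
    ∃ (q₀ : Q) (f : K → K), (∀ q ≤ q₀, ∀ y, ∃ x ∈ S q, f x ≠ y) ∧
      ∀ q ≤ q₀, ∀ g : K → K, (∀ x ∈ S q, g x < f x) → ∃ p ≤ q, ∃ y, ∀ x ∈ S p, g x = y := by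
  by_contra hcon
  push Not at hcon
  let T : Type u := {p : Q × (K → K) // ∀ q ≤ p.1, ∀ y, ∃ x ∈ S q, p.2 x ≠ y}
  have hstep : ∀ t : T, ∃ t' : T, t'.1.1 ≤ t.1.1 ∧ ∀ x ∈ S t'.1.1, t'.1.2 x < t.1.2 x := by
    rintro ⟨⟨q, f⟩, ht⟩
    obtain ⟨q', hq', g, hg, h1⟩ := hcon q f ht
    exact ⟨⟨(q', g), fun p hp y => h1 p hp y⟩, hq', hg⟩
  choose nx hnx1 hnx2 using hstep
  obtain ⟨q⟩ := ‹Nonempty Q›
  let t0 : T := ⟨(q, id), by
    intro q' _ y
    by_contra h1
    push Not at h1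
    apply hne q'
    intro a ha b hb
    have h2 := h1 a ha
    have h3 := h1 b hb
    simp only [id] at h2 h3
    rw [h2, h3]⟩
  let T' : ℕ → T := fun n => nx^[n] t0
  have hTs : ∀ n, T' (n + 1) = nx (T' n) := fun n => Function.iterate_succ_apply' _ _ _
  have h1 : Antitone fun n => (T' n).1.1 := antitone_nat_of_succ_le fun n => by
    rw [hTs]; exact hnx1 _
  obtain ⟨x, hx⟩ := hint _ h1
  have h2 : ∀ n, (T' (n + 1)).1.2 x < (T' n).1.2 x := by
    intro n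
    have h3 : x ∈ S (T' (n + 1)).1.1 := hx (n + 1)
    rw [hTs] at h3 ⊢
    exact hnx2 _ x h3
  have hne' : (range fun n => (T' n).1.2 x).Nonempty := ⟨_, ⟨0, rfl⟩⟩
  obtain ⟨n, hn⟩ := wellFounded_lt.min_mem (range fun n => (T' n).1.2 x) hne'
  have h3 := wellFounded_lt.not_lt_min (range fun n => (T' n).1.2 x)
    (x := (T' (n + 1)).1.2 x) ⟨n + 1, rfl⟩
  rw [← hn] at h3
  exact h3 (h2 n)

end Tree

/-- The main theorem in terms of a well-order `K`. -/
theorem core [WellFoundedLT K] (hK : Inacc K κ) (hgood : Good K)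
    (hsmall : ∀ Y : Type u, #Y < κ → ¬ Good Y) (b : K → K) :
    ∃ δ : K, (∃ e, e < δ) ∧ (∀ e < δ, b e < δ) ∧
      ∀ i < δ, ∀ e : K → K, (∀ j < i, e j < δ) → ∃ c < δ, ∀ j < i, e j < c := by
  classical
  by_contra hcon
  push Not at hcon
  obtain ⟨Q, _, S, hQ, hanti, hcut, hint, hne⟩ := hgood
  have hinf : ℵ₀ < κ := hK.inacc.aleph0_lt
  have hS : ∀ q, (S q).Nonempty := by
    intro q
    by_contra h2
    rw [not_nonempty_iff_eq_empty] at h2
    exact hne q (by rw [h2]; exact subsingleton_empty)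
  have hdec : ∀ Y : Type u, #Y < κ → ∀ (h : K → Y) (q : Q), ∃ p ≤ q, ∃ y, ∀ x ∈ S p, h x = y :=
    fun Y hY h q => decide_of hne hanti hcut hint (hsmall Y hY) h q
  obtain ⟨q₀, f, hf1, hf2⟩ := exists_minimal hne hanti hint
  -- `f` is unbounded
  have hf3 : ∀ q ≤ q₀, ∀ η : K, ∃ p ≤ q, ∀ x ∈ S p, η < f x := by
    intro q hq η
    obtain ⟨c, hc, -⟩ := hK.exists_gt η η
    obtain ⟨p, hp, y, hy⟩ := hdec (Iic c) (hK.mk_Iic c) (fun x => ⟨min (f x) c, min_le_right _ _⟩) q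
    refine ⟨p, hp, ?_⟩
    by_cases h1 : y.1 = c
    · intro x hx
      have h2 : min (f x) c = y.1 := congrArg Subtype.val (hy x hx)
      rw [h1] at h2
      exact hc.trans_le (min_eq_right_iff.1 h2)
    · obtain ⟨x, hx, h3⟩ := hf1 p (hp.trans hq) y.1
      have h2 : min (f x) c = y.1 := congrArg Subtype.val (hy x hx)
      rcases min_choice (f x) c with h4 | h4
      · rw [h4] at h2
        exact absurd h2 h3
      · rw [h4] at h2
        exact absurd h2.symm h1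
  -- `f x` is closed under `b`
  have hf4 : ∀ q ≤ q₀, ∃ p ≤ q, ∀ x ∈ S p, ∀ e < f x, b e < f x := by
    intro q hq
    obtain ⟨p, hp, h1⟩ := hcut q {x | ∀ e < f x, b e < f x}
    rcases h1 with h1 | h1
    · exact ⟨p, hp, fun x hx => h1 hx⟩
    · exfalso
      have h2 : ∀ x, ∃ e, x ∈ S p → e < f x ∧ f x ≤ b e := by
        intro x
        by_cases hx : x ∈ S p
        · have h3 := h1 hx
          simp only [mem_compl_iff, mem_setOf_eq] at h3
          push Not at h3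
          obtain ⟨e, he1, he2⟩ := h3
          exact ⟨e, fun _ => ⟨he1, he2⟩⟩
        · exact ⟨x, fun h => absurd h hx⟩
      choose h hh using h2
      obtain ⟨p', hp', y, hy⟩ := hf2 p (hp.trans hq) h fun x hx => (hh x hx).1
      obtain ⟨p'', hp'', h3⟩ := hf3 p' (hp'.trans (hp.trans hq)) (b y)
      obtain ⟨x, hx⟩ := hS p''
      have h4 := hanti _ _ hp'' hx
      have h5 := (hh x (hanti _ _ hp' h4)).2
      rw [hy x h4] at h5
      exact absurd (h3 x hx) (not_lt.2 h5)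
  obtain ⟨p0, hp0, h0⟩ := hf4 q₀ le_rfl
  obtain ⟨η0⟩ : Nonempty K := by
    rw [← mk_ne_zero_iff, hK.mkK]
    exact hK.inacc.ne_zero
  obtain ⟨p1, hp1, h1⟩ := hf3 p0 hp0 η0
  -- a short cofinal map
  have h2 : ∀ x, ∃ (i : K) (e : K → K), x ∈ S p1 → i < f x ∧ (∀ j < i, e j < f x) ∧
      ∀ c < f x, ∃ j < i, c ≤ e j := by
    intro x
    by_cases hx : x ∈ S p1
    · obtain ⟨i, hi, e, he1, he2⟩ := hcon (f x) ⟨η0, h1 x hx⟩ (h0 x (hanti _ _ hp1 hx))
      exact ⟨i, e, fun _ => ⟨hi, he1, he2⟩⟩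
    · exact ⟨x, id, fun h => absurd h hx⟩
  choose iot e hie using h2
  obtain ⟨p2, hp2, i0, hi0⟩ := hf2 p1 (hp1.trans hp0) iot fun x hx => (hie x hx).1
  have hp2' : p2 ≤ q₀ := hp2.trans (hp1.trans hp0)
  have he1 : ∀ x ∈ S p2, ∀ j < i0, e x j < f x := by
    intro x hx j hj
    rw [← hi0 x hx] at hj
    exact (hie x (hanti _ _ hp2 hx)).2.1 j hj
  have he2 : ∀ x ∈ S p2, ∀ c < f x, ∃ j < i0, c ≤ e x j := by
    intro x hx c hc
    obtain ⟨j, hj, h3⟩ := (hie x (hanti _ _ hp2 hx)).2.2 c hc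
    rw [hi0 x hx] at hj
    exact ⟨j, hj, h3⟩
  -- some value is undecided
  have hunb : ∀ q ≤ p2, ∃ j < i0, ∀ β : K, ∃ v, β ≤ v ∧ ∃ p ≤ q, ∀ x ∈ S p, e x j = v := by
    intro q hq
    by_contra h3
    push Not at h3
    have h3' : ∀ j : Iio i0, ∃ β : K, ∀ v, β ≤ v → ∀ p ≤ q, ∃ x ∈ S p, e x j ≠ v := by
      intro j
      obtain ⟨β, hβ⟩ := h3 j.1 j.2
      exact ⟨β, fun v hv p hp => hβ v hv p hp⟩
    choose β hβ using h3'
    obtain ⟨B, hB⟩ := hK.bdd_range β (hK.mk_Iio i0)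
    obtain ⟨p, hp, h4⟩ := hf3 q (hq.trans hp2') B
    have hi0ne : Nonempty (Iio i0) := by
      obtain ⟨x, hx⟩ := hS p
      obtain ⟨j, hj, -⟩ := he2 x (hanti _ _ (hp.trans hq) hx) B (h4 x hx)
      exact ⟨⟨j, hj⟩⟩
    have h5 : ∀ x, ∃ j : Iio i0, x ∈ S p → B ≤ e x j := by
      intro x
      by_cases hx : x ∈ S p
      · obtain ⟨j, hj, h6⟩ := he2 x (hanti _ _ (hp.trans hq) hx) B (h4 x hx)
        exact ⟨⟨j, hj⟩, fun _ => h6⟩
      · exact ⟨Classical.arbitrary _, fun h => absurd h hx⟩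
    choose h hh using h5
    obtain ⟨p', hp', j, hj⟩ := hdec (Iio i0) (hK.mk_Iio i0) h p
    obtain ⟨p'', hp'', v, hv⟩ := hf2 p' (hp'.trans (hp.trans (hq.trans hp2'))) (fun x => e x j)
      fun x hx => he1 x (hanti _ _ (hp'.trans (hp.trans hq)) hx) j j.2
    obtain ⟨x, hx⟩ := hS p''
    have h7 : B ≤ v := by
      have h8 := hh x (hanti _ _ (hp''.trans hp') hx)
      rw [hj x (hanti _ _ hp'' hx)] at h8
      have h9 : e x j = v := hv x hx
      rwa [h9] at h8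
    obtain ⟨y, hy, h10⟩ := hβ j v ((hB j).le.trans h7) p'' (hp''.trans (hp'.trans hp))
    exact h10 (hv y hy)
  -- one step of the tree
  have hstep : ∀ q : {q : Q // q ≤ p2}, ∃ φ : K → K, Function.Injective φ ∧ ∀ k, ∃ p : {q : Q // q ≤ p2},
      p.1 ≤ q.1 ∧ ∃ j < i0, ∀ x ∈ S p.1, e x j = φ k := by
    rintro ⟨q, hq⟩
    obtain ⟨j, hj, h3⟩ := hunb q hq
    let U : Set K := {v | ∃ p ≤ q, ∀ x ∈ S p, e x j = v}
    have hU : κ ≤ #U := by
      by_contra h4
      push Not at h4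
      obtain ⟨B, hB⟩ := hK.bdd U h4
      obtain ⟨v, hv, h5⟩ := h3 B
      exact absurd (hB v h5) (not_lt.2 hv)
    rw [← hK.mkK] at hU
    obtain ⟨φ⟩ := hU
    refine ⟨fun k => (φ k : K), fun k k' hkk => φ.injective (Subtype.ext hkk), ?_⟩
    intro k
    obtain ⟨p, hp, h4⟩ := (φ k).2
    exact ⟨⟨p, hp.trans hq⟩, hp, j, hj, h4⟩
  choose φ hφ1 nx hφ2 j hφ3 hφ4 using hstep
  -- the function `g` and a value which is not taken
  obtain ⟨g, hg⟩ := hK.exists_g
  have hpow : #(Iio i0) ^ ℵ₀ < κ := by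
    have h3 : #(Iio i0) ^ ℵ₀ ≤ 2 ^ (#(Iio i0) * ℵ₀) := by
      rw [power_mul]
      exact power_le_power_right (cantor _).le
    exact h3.trans_lt (hK.inacc.isStrongLimit.two_power_lt
      (mul_lt_of_lt hinf.le (hK.mk_Iio i0) hinf))
  obtain ⟨B, hB⟩ := hK.unb (succ (#(Iio i0) ^ ℵ₀)) (hK.inacc.isSuccLimit.succ_lt hpow)
  have hB' : #(Iio i0) ^ ℵ₀ < #(Iio B) := (lt_succ _).trans_le hB
  have h3 : ∀ x, ∃ ν : Iio B, ∀ s : ℕ → K, (∀ n, ∃ j < i0, s n = e x j) → g s ≠ ν := by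
    intro x
    by_contra h4
    push Not at h4
    choose s hs1 hs2 using h4
    choose jj hjj1 hjj2 using hs1
    have h5 : #(Iio B) ≤ #(ℕ → Iio i0) := by
      refine Cardinal.mk_le_of_injective (f := fun ν n => (⟨jj ν n, hjj1 ν n⟩ : Iio i0)) ?_
      intro ν ν' h6
      have h7 : s ν = s ν' := by
        funext n
        rw [hjj2 ν n, hjj2 ν' n]
        have h8 := congrArg Subtype.val (congrFun h6 n)
        simp only at h8
        rw [h8]
      apply Subtype.ext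
      rw [← hs2 ν, ← hs2 ν', h7]
    rw [mk_arrow, mk_nat, lift_aleph0, lift_uzero] at h5
    exact absurd hB' (not_lt.2 h5)
  choose νf hνf using h3
  obtain ⟨p3, hp3, ν, hν⟩ := hdec (Iio B) (hK.mk_Iio B) νf p2
  -- the tree of positions
  let pos : List K → {q : Q // q ≤ p2} := fun t => t.foldr (fun k q => nx q k) ⟨p3, hp3⟩
  have hpos : ∀ k t, pos (k :: t) = nx (pos t) k := fun k t => rfl
  obtain ⟨x, hx⟩ := hg (fun t k => φ (pos t) k) (fun t => hφ1 _) ν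
  have hanti' : Antitone fun n => (pos (hist x n)).1 := antitone_nat_of_succ_le fun n => by
    change (pos (x n :: hist x n)).1 ≤ _
    rw [hpos]
    exact hφ2 _ _
  obtain ⟨y, hy⟩ := hint _ hanti'
  have h4 : ∀ n, ∃ j < i0, run (fun t k => φ (pos t) k) x n = e y j := by
    intro n
    have h5 := hy (n + 1)
    change y ∈ S (pos (x n :: hist x n)).1 at h5
    rw [hpos] at h5
    exact ⟨_, hφ3 _ _, (hφ4 _ _ _ h5).symm⟩
  have h5 : νf y = ν := hν y (hy 0)
  have h6 := hνf y _ h4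
  rw [h5] at h6
  exact h6 hx

end Pool.Agent.TH768.CC
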