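import Mathlib
import Pool.Agent.TH768.CC.Defs

/-! `Choose` wins iff there is a tree of positions. -/

set_option autoImplicit false

namespace Pool.Agent.TH768.CC

open Set

universe u

variable {X : Type u}

/-- history and current set after `n` rounds, if Cut plays `D ∩ A n`, `D \ A n` -/
noncomputable def st (σ : List (Set X × Set X) → Set X) (A : ℕ → Set X) :
    ℕ → List (Set X × Set X) × Set X
  | 0 => ([], univ)
  | n + 1 => ((st σ A n).1 ++ [((st σ A n).2 ∩ A n, (st σ A n).2 \ A n)],
      (st σ A n).2 ∩ σ ((st σ A n).1 ++ [((st σ A n).2 ∩ A n, (st σ A n).2 \ A n)]))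

lemma st_congr (σ : List (Set X × Set X) → Set X) (A A' : ℕ → Set X) (n : ℕ)
    (h : ∀ m < n, A m = A' m) : st σ A n = st σ A' n := by
  induction n with
  | zero => rfl
  | succ n ih =>
    have h1 := ih fun m hm => h m (by omega)
    have h2 := h n (by omega)
    simp only [st]
    rw [h1, h2]

/-- the answer in round `n` -/
noncomputable def an (σ : List (Set X × Set X) → Set X) (A : ℕ → Set X) (n : ℕ) : Set X :=
  σ (st σ A (n + 1)).1

lemma st_succ_snd (σ : List (Set X × Set X) → Set X) (A : ℕ → Set X) (n : ℕ) :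
    (st σ A (n + 1)).2 = (st σ A n).2 ∩ an σ A n := rfl

lemma st_fst (σ : List (Set X × Set X) → Set X) (A : ℕ → Set X) (n : ℕ) :
    (st σ A n).1 = (List.range n).map fun m => ((st σ A m).2 ∩ A m, (st σ A m).2 \ A m) := by
  induction n with
  | zero => rfl
  | succ n ih =>
    rw [List.range_succ, List.map_append, ← ih]
    rfl

lemma st_snd (σ : List (Set X × Set X) → Set X) (A : ℕ → Set X) (n : ℕ) :
    (st σ A n).2 = {x | ∀ m < n, x ∈ an σ A m} := by
  induction n with
  | zero =>
    ext x
    simp [st]
  | succ n ih =>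
    rw [st_succ_snd, ih]
    ext x
    constructor
    · rintro ⟨h1, h2⟩ m hm
      rcases Nat.lt_succ_iff_lt_or_eq.1 hm with h | h
      · exact h1 m h
      · rw [h]; exact h2
    · intro h
      exact ⟨fun m hm => h m (by omega), h n (by omega)⟩

lemma st_anti (σ : List (Set X × Set X) → Set X) (A : ℕ → Set X) {m n : ℕ} (h : m ≤ n) :
    (st σ A n).2 ⊆ (st σ A m).2 := by
  rw [st_snd, st_snd]
  intro x hx k hk
  exact hx k (by omega)

/-- a winning strategy -/
def Wins (σ : List (Set X × Set X) → Set X) : Prop :=
  ∀ A B C : ℕ → Set X,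
      (∀ n, A n ∪ B n = {x | ∀ m < n, x ∈ C m} ∧ Disjoint (A n) (B n)) →
      (∀ n, C n = σ ((List.range (n + 1)).map fun m => (A m, B m))) →
      (∀ n, (C n = A n ∨ C n = B n) ∧ ∀ x, C n ≠ {x}) ∧ ∃ x, ∀ n, x ∈ C n

lemma Wins.spec {σ : List (Set X × Set X) → Set X} (h : Wins σ) (A : ℕ → Set X) :
    (∀ n, (an σ A n = (st σ A n).2 ∩ A n ∨ an σ A n = (st σ A n).2 \ A n) ∧
      ∀ x, an σ A n ≠ {x}) ∧ ∃ x, ∀ n, x ∈ an σ A n := by
  refine h (fun n => (st σ A n).2 ∩ A n) (fun n => (st σ A n).2 \ A n) (fun n => an σ A n) ?_ ?_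
  · intro n
    refine ⟨?_, ?_⟩
    · rw [← st_snd]
      exact inter_union_sdiff _ _
    · exact Disjoint.mono_left inter_subset_right disjoint_sdiff_right
  · intro n
    unfold an
    rw [st_fst]

lemma Wins.st_succ {σ : List (Set X × Set X) → Set X} (h : Wins σ) (A : ℕ → Set X) (n : ℕ) :
    (st σ A (n + 1)).2 = an σ A n := by
  rw [st_succ_snd]
  refine inter_eq_right.2 ?_
  rcases ((h.spec A).1 n).1 with h1 | h1
  · rw [h1]; exact inter_subset_left
  · rw [h1]; exact sdiff_subset

/-- the sequence of cuts given by a list -/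
def cuts (l : List (Set X)) (n : ℕ) : Set X := l.getD n univ

lemma cuts_prefix {l l' : List (Set X)} (h : l <+: l') {n : ℕ} (hn : n < l.length) :
    cuts l n = cuts l' n := by
  obtain ⟨t, rfl⟩ := h
  unfold cuts
  rw [List.getD_append _ _ _ _ hn]

/-- the current set of a position -/
noncomputable def pset (σ : List (Set X × Set X) → Set X) (l : List (Set X)) : Set X :=
  (st σ (cuts l) l.length).2

lemma pset_anti (σ : List (Set X × Set X) → Set X) {l l' : List (Set X)} (h : l <+: l') :
    pset σ l' ⊆ pset σ l := by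
  unfold pset
  rw [st_congr σ (cuts l) (cuts l') l.length fun m hm => cuts_prefix h hm]
  exact st_anti _ _ h.length_le

lemma pset_append {σ : List (Set X × Set X) → Set X} (h : Wins σ) (l : List (Set X))
    (A : Set X) : pset σ (l ++ [A]) = pset σ l ∩ A ∨ pset σ (l ++ [A]) = pset σ l \ A := by
  have h1 : pset σ (l ++ [A]) = an σ (cuts (l ++ [A])) l.length := by
    unfold pset
    rw [List.length_append, List.length_singleton, h.st_succ]
  have h2 : (st σ (cuts (l ++ [A])) l.length).2 = pset σ l := by
    unfold pset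
    rw [st_congr σ (cuts l) (cuts (l ++ [A])) l.length
      fun m hm => cuts_prefix (List.prefix_append _ _) hm]
  have h3 : cuts (l ++ [A]) l.length = A := by
    unfold cuts
    rw [List.getD_append_right _ _ _ _ le_rfl]
    simp
  rcases ((h.spec (cuts (l ++ [A]))).1 l.length).1 with h4 | h4
  · left
    rw [h1, h4, h2, h3]
  · right
    rw [h1, h4, h2, h3]

lemma pset_nss {σ : List (Set X × Set X) → Set X} (h : Wins σ) (l : List (Set X)) :
    ¬ (pset σ l).Subsingleton := by
  have key : ¬ (pset σ (l ++ [univ])).Subsingleton := by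
    have h1 : pset σ (l ++ [univ]) = an σ (cuts (l ++ [univ])) l.length := by
      unfold pset
      rw [List.length_append, List.length_singleton, h.st_succ]
    rw [h1]
    intro hs
    obtain ⟨x, hx⟩ := (h.spec (cuts (l ++ [univ]))).2
    exact ((h.spec (cuts (l ++ [univ]))).1 l.length).2 x
      (hs.eq_singleton_of_mem (hx l.length))
  exact fun hs => key (hs.anti (pset_anti σ (List.prefix_append _ _)))

/-- lists of cuts, ordered by extension -/
def Pos (X : Type u) : Type u := List (Set X)

instance : Preorder (Pos X) where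
  le p q := (q : List (Set X)) <+: p
  le_refl p := List.prefix_refl (p : List (Set X))
  le_trans _ _ _ h h' := List.IsPrefix.trans h' h

lemma Wins.good {σ : List (Set X × Set X) → Set X} (h : Wins σ) : Good X := by
  classical
  refine ⟨Pos X, inferInstance, fun l => pset σ l, ⟨([] : List (Set X))⟩, ?_, ?_, ?_, ?_⟩
  · intro p q hpq
    exact pset_anti σ hpq
  · intro q A
    let l : List (Set X) := q
    refine ⟨(l ++ [A] : List (Set X)), List.prefix_append l [A], ?_⟩
    rcases pset_append h l A with h1 | h1
    · left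
      change pset σ (l ++ [A]) ⊆ A
      rw [h1]
      exact inter_subset_right
    · right
      change pset σ (l ++ [A]) ⊆ Aᶜ
      rw [h1]
      exact fun x hx => hx.2
  · intro q hq
    -- the limit sequence of cuts
    let A : ℕ → Set X := fun n =>
      if hn : ∃ N, n < (q N : List (Set X)).length then cuts (q (Nat.find hn)) n else univ
    have hA : ∀ N n, n < (q N : List (Set X)).length → A n = cuts (q N) n := by
      intro N n hn
      have hex : ∃ N, n < (q N : List (Set X)).length := ⟨N, hn⟩
      have h1 : A n = cuts (q (Nat.find hex)) n := dif_pos hex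
      have h2 : Nat.find hex ≤ N := Nat.find_min' hex hn
      have h3 : (q (Nat.find hex) : List (Set X)) <+: q N := hq h2
      rw [h1]
      exact cuts_prefix h3 (Nat.find_spec hex)
    obtain ⟨x, hx⟩ := (h.spec A).2
    refine ⟨x, fun N => ?_⟩
    change x ∈ (st σ (cuts (q N)) (q N : List (Set X)).length).2
    rw [st_congr σ (cuts (q N)) A _ fun m hm => (hA N m hm).symm, st_snd]
    exact fun m _ => hx m
  · intro q
    exact pset_nss h q

theorem ChooseWins.good (h : ChooseWins X) : Good X := by
  obtain ⟨σ, hσ⟩ := h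
  exact Wins.good (σ := σ) hσ

theorem Good.chooseWins (h : Good X) : ChooseWins X := by
  classical
  obtain ⟨Q, _, S, ⟨q₀⟩, hanti, hcut, hint, hss⟩ := h
  choose c hc1 hc2 using hcut
  let pos : List (Set X × Set X) → Q := fun l => l.foldl (fun q m => c q m.1) q₀
  let σ : List (Set X × Set X) → Set X := fun l =>
    if S (pos l) ⊆ (l.getLastD (∅, ∅)).1 then (l.getLastD (∅, ∅)).1 else (l.getLastD (∅, ∅)).2
  refine ⟨σ, ?_⟩
  intro A B C hAB hC
  let p : ℕ → Q := fun n => pos ((List.range n).map fun m => (A m, B m))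
  have hp : ∀ n, p (n + 1) = c (p n) (A n) := by
    intro n
    simp only [p, pos]
    rw [List.range_succ, List.map_append, List.foldl_append]
    rfl
  have hlast : ∀ n, ((List.range (n + 1)).map fun m => (A m, B m)).getLastD (∅, ∅)
      = (A n, B n) := by
    intro n
    rw [List.range_succ, List.map_append]
    simp
  have hp' : ∀ n, S (p (n + 1)) ⊆ S (p n) := fun n => by
    rw [hp]; exact hanti _ _ (hc1 _ _)
  have key : ∀ n, (S (p n) ⊆ {x | ∀ m < n, x ∈ C m}) := by
    intro n
    induction n with
    | zero => intro x _ m hm; omega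
    | succ n ih =>
      have h1 : S (p (n + 1)) ⊆ A n ∪ B n := by
        rw [(hAB n).1]
        exact (hp' n).trans ih
      have h2 : S (p (n + 1)) ⊆ C n := by
        rw [hC n]
        simp only [σ]
        rw [hlast]
        change S (p (n + 1)) ⊆ if S (p (n + 1)) ⊆ A n then A n else B n
        split_ifs with h3
        · exact h3
        · rcases hc2 (p n) (A n) with h4 | h4
          · rw [← hp] at h4
            exact absurd h4 h3
          · rw [← hp] at h4
            intro x hx
            rcases h1 hx with h5 | h5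
            · exact absurd h5 (h4 hx)
            · exact h5
      intro x hx m hm
      rcases Nat.lt_succ_iff_lt_or_eq.1 hm with h3 | h3
      · exact ih (hp' n hx) m h3
      · rw [h3]
        exact h2 hx
  have key2 : ∀ n, S (p (n + 1)) ⊆ C n := fun n x hx => key (n + 1) hx n (by omega)
  refine ⟨fun n => ⟨?_, ?_⟩, ?_⟩
  · rw [hC n]
    simp only [σ]
    rw [hlast]
    split_ifs
    · left; rfl
    · right; rfl
  · intro x hx
    apply hss (p (n + 1))
    refine Subsingleton.anti ?_ (key2 n)
    rw [hx]
    exact subsingleton_singleton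
  · obtain ⟨x, hx⟩ := hint p (antitone_nat_of_succ_le fun n => by rw [hp]; exact hc1 _ _)
    exact ⟨x, fun n => key2 n (hx (n + 1))⟩

theorem chooseWins_iff : ChooseWins X ↔ Good X := ⟨ChooseWins.good, Good.chooseWins⟩

end Pool.Agent.TH768.CC
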