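import Mathlib
import Pool.Agent.TH768.CC.GoodIff
import Pool.Agent.TH768.CC.Core

/-! The final theorem on the weak cut and choose game. -/

set_option autoImplicit false
set_option linter.all false

namespace Pool.Agent.TH768.CC

open Cardinal Order Set Ordinal

universe u

/-- transfer along an injection -/
lemma Good.of_le {X Y : Type u} (h : Good X) (hle : #X ≤ #Y) : Good Y := by
  obtain ⟨ι⟩ := hle
  obtain ⟨Q, _, S, hQ, hanti, hcut, hint, hne⟩ := h
  refine ⟨Q, inferInstance, fun q => ι '' S q, hQ, ?_, ?_, ?_, ?_⟩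
  · intro p q hpq
    exact image_mono (hanti _ _ hpq)
  · intro q A
    obtain ⟨p, hp, h1⟩ := hcut q (ι ⁻¹' A)
    refine ⟨p, hp, ?_⟩
    rcases h1 with h1 | h1
    · left
      rintro _ ⟨x, hx, rfl⟩
      exact h1 hx
    · right
      rintro _ ⟨x, hx, rfl⟩
      exact h1 hx
  · intro q hq
    obtain ⟨x, hx⟩ := hint q hq
    exact ⟨ι x, fun n => ⟨x, hx n, rfl⟩⟩
  · intro q hs
    apply hne q
    intro a ha b hb
    exact ι.injective (hs ⟨a, ha, rfl⟩ ⟨b, hb, rfl⟩)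

/-- Choose does not win on countable sets -/
lemma Good.aleph0_lt {X : Type u} (h : Good X) : ℵ₀ < #X := by
  classical
  by_contra hX
  push Not at hX
  obtain ⟨Q, _, S, ⟨q₀⟩, hanti, hcut, hint, hne⟩ := h
  have hcount : Countable X := mk_le_aleph0_iff.1 hX
  have hneX : Nonempty X := by
    obtain ⟨x, -⟩ := hint (fun _ => q₀) antitone_const
    exact ⟨x⟩
  obtain ⟨f, hf⟩ := exists_surjective_nat X
  have hstep : ∀ (q : Q) (x : X), ∃ p ≤ q, x ∉ S p := by
    intro q x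
    obtain ⟨p, hp, h1⟩ := hcut q {x}
    rcases h1 with h1 | h1
    · exact absurd (subsingleton_singleton.anti h1) (hne p)
    · exact ⟨p, hp, fun hx => h1 hx rfl⟩
  choose nx h1 h2 using hstep
  let q : ℕ → Q := fun n => Nat.rec q₀ (fun n q => nx q (f n)) n
  have hq : ∀ n, q (n + 1) = nx (q n) (f n) := fun n => rfl
  obtain ⟨x, hx⟩ := hint q (antitone_nat_of_succ_le fun n => by rw [hq]; exact h1 _ _)
  obtain ⟨n, rfl⟩ := hf x
  exact h2 (q n) (f n) (by rw [← hq]; exact hx (n + 1))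

/-- a minimal cardinal at which Choose wins is regular -/
lemma Good.isRegular {μ : Cardinal.{u}} (h : Good μ.ord.ToType)
    (hsmall : ∀ Y : Type u, #Y < μ → ¬ Good Y) : μ.IsRegular := by
  classical
  have hinf := h.aleph0_lt
  rw [mk_ord_toType] at hinf
  rcases isRegular_or_isSingular hinf.le with h1 | h1
  · exact h1
  · exfalso
    obtain ⟨Q, _, S, ⟨q₀⟩, hanti, hcut, hint, hne⟩ := h
    have h2 : Order.cof μ.ord.ToType < μ := by
      rw [cof_toType]
      exact h1.cof_ord_lt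
    obtain ⟨s, hs, hs'⟩ := Order.exists_cof_eq μ.ord.ToType
    have h3 : ∀ x : μ.ord.ToType, ∃ y : s, x ≤ y := by
      intro x
      obtain ⟨y, hy, hxy⟩ := hs x
      exact ⟨⟨y, hy⟩, hxy⟩
    choose h hh using h3
    obtain ⟨p, hp, y, hy⟩ := decide_of hne hanti hcut hint (hsmall s (by rw [hs']; exact h2)) h q₀
    have h4 : #(S p) < μ := by
      have h5 : S p ⊆ Iic (y : μ.ord.ToType) := by
        intro x hx
        have := hh x
        rw [hy x hx] at this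
        exact this
      refine (mk_le_mk_of_subset h5).trans_lt ?_
      rw [← Iio_union_right]
      refine (mk_union_le _ _).trans_lt (add_lt_of_lt hinf.le (mk_Iio_toType_ord_lt _) ?_)
      rw [mk_singleton]
      exact one_lt_aleph0.trans hinf
    apply hsmall (S p) h4
    refine ⟨{q : Q // q ≤ p}, inferInstance, fun q => Subtype.val ⁻¹' (S q.1), ⟨⟨p, le_rfl⟩⟩,
      ?_, ?_, ?_, ?_⟩
    · intro q q' hqq x hx
      exact hanti _ _ hqq hx
    · intro q A
      obtain ⟨p', hp', h5⟩ := hcut q.1 (Subtype.val '' A)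
      refine ⟨⟨p', hp'.trans q.2⟩, hp', ?_⟩
      rcases h5 with h5 | h5
      · left
        intro x hx
        obtain ⟨x', hx', h6⟩ := h5 hx
        rwa [← Subtype.ext h6]
      · right
        intro x hx hxA
        exact h5 hx ⟨x, hxA, rfl⟩
    · intro q hq
      obtain ⟨x, hx⟩ := hint (fun n => (q n).1) fun m n hmn => hq hmn
      exact ⟨⟨x, hanti _ _ (q 0).2 (hx 0)⟩, fun n => hx n⟩
    · intro q hss
      apply hne q.1
      intro a ha b hb
      have h5 := @hss ⟨a, hanti _ _ q.2 ha⟩ ha ⟨b, hanti _ _ q.2 hb⟩ hb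
      exact congrArg Subtype.val h5

/-- the ordinal of an element -/
noncomputable def oo {κ : Cardinal.{u}} (a : κ.ord.ToType) : Ordinal.{u} := (ToType.toOrd a).1

lemma oo_lt {κ : Cardinal.{u}} (a : κ.ord.ToType) : oo a < κ.ord := (ToType.toOrd a).2

lemma oo_lt_oo {κ : Cardinal.{u}} {a b : κ.ord.ToType} : oo a < oo b ↔ a < b := by
  unfold oo
  rw [Subtype.coe_lt_coe]
  exact (ToType.mk.symm).lt_iff_lt

lemma oo_surj {κ : Cardinal.{u}} {o : Ordinal.{u}} (ho : o < κ.ord) :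
    ∃ a : κ.ord.ToType, oo a = o := by
  refine ⟨ToType.mk ⟨o, ho⟩, ?_⟩
  unfold oo
  simp

lemma mk_Iio_oo {κ : Cardinal.{u}} (a : κ.ord.ToType) : #(Iio a) = (oo a).card := by
  have h : oo a = typein (α := κ.ord.ToType) (· < ·) a := rfl
  rw [h]
  rfl

lemma inacc {κ : Cardinal.{u}} (hκ : κ.IsInaccessible) : Inacc κ.ord.ToType κ where
  inacc := hκ
  mkK := mk_ord_toType κ
  mk_Iio := fun a => mk_Iio_toType_ord_lt a
  bdd := by
    intro s hs
    have h1 : ¬ IsCofinal s := by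
      intro h
      have h2 := Order.cof_le h
      rw [cof_toType, hκ.isRegular.cof_ord] at h2
      exact absurd hs (not_lt.2 h2)
    rw [not_isCofinal_iff] at h1
    obtain ⟨b, hb⟩ := h1
    exact ⟨b, fun a ha => hb a ha⟩
  unb := by
    intro c hc
    obtain ⟨a, ha⟩ := oo_surj (κ := κ) (o := c.ord) (ord_lt_ord.2 hc)
    refine ⟨a, ?_⟩
    rw [mk_Iio_oo, ha, card_ord]

theorem mahlo {κ : Cardinal.{u}} (hκ : κ.IsInaccessible) (hgood : Good κ.ord.ToType)
    (hsmall : ∀ Y : Type u, #Y < κ → ¬ Good Y) : Mahlo κ := by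
  classical
  refine ⟨hκ, ?_⟩
  intro C hC
  obtain ⟨hC1, hC2, hC3⟩ := hC
  have hK := inacc hκ
  have h1 : ∀ e : κ.ord.ToType, ∃ b : κ.ord.ToType, (2 : Cardinal.{u}) ^ #(Iio e) ≤ #(Iio b) ∧
      ℵ₀ ≤ #(Iio b) ∧ ∃ c ∈ C, oo e < c ∧ c < oo b := by
    intro e
    obtain ⟨b1, hb1⟩ := hK.unb (2 ^ #(Iio e)) (hκ.isStrongLimit.two_power_lt (hK.mk_Iio e))
    obtain ⟨b2, hb2⟩ := hK.unb ℵ₀ hκ.aleph0_lt
    obtain ⟨c, hc, hec⟩ := hC2 (oo e) (oo_lt e)
    obtain ⟨b3, hb3⟩ := oo_surj (hC1 c hc)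
    obtain ⟨b4, h4, h4'⟩ := hK.exists_gt b1 b2
    obtain ⟨b, hb, hb'⟩ := hK.exists_gt b3 b4
    refine ⟨b, hb1.trans (mk_le_mk_of_subset fun x hx => (hx : x < b1).trans (h4.trans hb')),
      hb2.trans (mk_le_mk_of_subset fun x hx => (hx : x < b2).trans (h4'.trans hb')),
      c, hc, hec, ?_⟩
    rw [← hb3]
    exact oo_lt_oo.2 hb
  choose b hb1 hb2 hb3 using h1
  obtain ⟨δ, ⟨e0, he0⟩, h2, h3⟩ := core hK hgood hsmall b
  have hlt : ∀ e < δ, #(Iio e) < #(Iio δ) := by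
    intro e he
    refine (cantor _).trans_le ((hb1 e).trans (mk_le_mk_of_subset fun x hx => ?_))
    exact (hx : x < b e).trans (h2 e he)
  -- `δ` is an initial ordinal
  have hord : (#(Iio δ)).ord = oo δ := by
    refine le_antisymm ?_ ?_
    · rw [mk_Iio_oo]
      exact ord_card_le _
    · by_contra h
      push Not at h
      obtain ⟨e, he⟩ := oo_surj (h.trans (oo_lt δ))
      rw [← he] at h
      have h4 := hlt e (oo_lt_oo.1 h)
      rw [mk_Iio_oo e, he, card_ord] at h4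
      exact lt_irrefl _ h4
  have hsurj : ∀ x < #(Iio δ), ∃ i < δ, #(Iio i) = x := by
    intro x hx
    have h4 : x.ord < oo δ := by
      rw [← hord]
      exact ord_lt_ord.2 hx
    obtain ⟨i, hi⟩ := oo_surj (h4.trans (oo_lt δ))
    rw [← hi] at h4
    exact ⟨i, oo_lt_oo.1 h4, by rw [mk_Iio_oo, hi, card_ord]⟩
  refine ⟨#(Iio δ), ⟨?_, ?_, ?_⟩, ?_⟩
  · exact (hb2 e0).trans_lt (hlt _ (h2 e0 he0))
  · have h4 : (#(Iio δ)).ord.cof = Order.cof (Iio δ) := by
      rw [hord, ← Ordinal.cof_type]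
      rfl
    rw [h4, Order.le_cof_iff]
    intro s hs
    by_contra h5
    push Not at h5
    obtain ⟨i, hi, his⟩ := hsurj _ h5
    obtain ⟨E⟩ : Nonempty (Iio i ≃ s) := Cardinal.eq.1 his
    obtain ⟨c, hc, h6⟩ := h3 i hi (fun j => if hj : j < i then ((E ⟨j, hj⟩ : s) : Iio δ).1 else j)
      (by
        intro j hj
        rw [dif_pos hj]
        exact ((E ⟨j, hj⟩ : s) : Iio δ).2)
    obtain ⟨y, hy, hcy⟩ := hs ⟨c, hc⟩
    have h7 := h6 (E.symm ⟨y, hy⟩).1 (E.symm ⟨y, hy⟩).2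
    rw [dif_pos (show (E.symm ⟨y, hy⟩).1 < i from (E.symm ⟨y, hy⟩).2)] at h7
    have h8 : (⟨(E.symm ⟨y, hy⟩).1, (E.symm ⟨y, hy⟩).2⟩ : Iio i) = E.symm ⟨y, hy⟩ := rfl
    have h9 : (E ⟨(E.symm ⟨y, hy⟩).1, (E.symm ⟨y, hy⟩).2⟩ : s) = ⟨y, hy⟩ := by
      rw [h8, Equiv.apply_symm_apply]
    rw [h9] at h7
    exact absurd h7 (not_lt.2 hcy)
  · intro x hx
    obtain ⟨i, hi, his⟩ := hsurj _ hx
    rw [← his]
    exact (hb1 i).trans_lt (hlt _ (h2 i hi))
  · rw [hord]
    refine hC3 _ (oo_lt δ) ?_ ?_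
    · intro h4
      have h5 := oo_lt_oo.2 he0
      rw [h4] at h5
      exact not_lt_zero h5
    · intro a ha
      obtain ⟨e, rfl⟩ := oo_surj (ha.trans (oo_lt δ))
      obtain ⟨c, hc, h4, h5⟩ := hb3 e
      exact ⟨c, hc, h4, h5.trans (oo_lt_oo.2 (h2 e (oo_lt_oo.1 ha)))⟩

/-- If Choose wins at an inaccessible cardinal which is not Mahlo, then Choose wins at a smaller
regular uncountable cardinal. -/
theorem smaller {κ : Cardinal.{u}} (hκ : κ.IsInaccessible) (h : ChooseWins κ.ord.ToType) :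
    Mahlo κ ∨ ∃ μ : Cardinal.{u}, μ < κ ∧ μ.IsRegular ∧ ℵ₀ < μ ∧ ChooseWins μ.ord.ToType := by
  classical
  by_cases hsmall : ∀ Y : Type u, #Y < κ → ¬ Good Y
  · exact Or.inl (mahlo hκ h.good hsmall)
  · right
    push Not at hsmall
    obtain ⟨Y, hY, hY'⟩ := hsmall
    have hex : ∃ μ : Cardinal.{u}, μ < κ ∧ Good μ.ord.ToType :=
      ⟨#Y, hY, hY'.of_le (by rw [mk_ord_toType])⟩
    let μ := wellFounded_lt.min {μ : Cardinal.{u} | μ < κ ∧ Good μ.ord.ToType} hex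
    obtain ⟨h1, h2⟩ : μ < κ ∧ Good μ.ord.ToType :=
      wellFounded_lt.min_mem {μ : Cardinal.{u} | μ < κ ∧ Good μ.ord.ToType} hex
    have h3 : ∀ Z : Type u, #Z < μ → ¬ Good Z := by
      intro Z hZ hZ'
      exact wellFounded_lt.not_lt_min {μ : Cardinal.{u} | μ < κ ∧ Good μ.ord.ToType}
        ⟨hZ.trans h1, hZ'.of_le (by rw [mk_ord_toType])⟩ hZ
    have h4 := h2.aleph0_lt
    rw [mk_ord_toType] at h4
    exact ⟨μ, h1, h2.isRegular h3, h4, h2.chooseWins⟩

theorem mono {μ κ : Cardinal.{u}} (h : μ ≤ κ) (h' : ChooseWins μ.ord.ToType) :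
    ChooseWins κ.ord.ToType := by
  refine (h'.good.of_le ?_).chooseWins
  rw [mk_ord_toType, mk_ord_toType]
  exact h

end Pool.Agent.TH768.CC
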